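import Mathlib
import Pool.Agent.Q186.Sch.Defs
import Pool.Agent.Q186.Sch.Calc
import Pool.Agent.Q186.Sch.Fun
import Pool.Agent.Q186.Sch.Final

/-!
# MP_6ade77_an, Q1: yes

There is one Lipschitz function `f` on the unit circle outside the disk algebra such that for
every `1 < p < ∞` there are contractions `T1`, `T0 n` on a separable Hilbert space with
`sup ‖T1 - T0 n‖_p < ∞`, `‖T0 n‖` nondecreasing with limit `1` and `‖f(T1) - f(T0 n)‖_p`
nondecreasing with limit `∞`.
-/

set_option autoImplicit false

namespace Pool.Agent.Results.MP_6ade77_an.NormOne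

open Pool.Agent.Q186.Sch

theorem result : ∃ f : ℂ → ℂ, LipOnCircle f ∧ ¬ InDiskAlgebra f ∧ ∀ p : ℝ, 1 < p →
    ∃ (H : Type) (_ : NormedAddCommGroup H) (_ : InnerProductSpace ℂ H) (_ : CompleteSpace H)
      (_ : TopologicalSpace.SeparableSpace H), BadSequence H p f :=
  final

end Pool.Agent.Results.MP_6ade77_an.NormOne
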